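import Pool.Agent.LibNoe.Defs

/-!
ROW [LN A1]. One linear projection.
-/

set_option autoImplicit false

open Pool.Agent.LibGMM Pool.Agent.LibK

namespace Pool.Agent.LibNoe

variable {L : Type} [Field L] [Algebra ℂ L]

/-- The value of a homogeneous polynomial at `(y_j T)`. -/
theorem aeval_hom {m : ℕ} (y : Fin m → L) {F : MvPolynomial (Fin m) ℂ} {d : ℕ}
    (hF : F.IsHomogeneous d) :
    MvPolynomial.aeval (fun j => hom (y j)) F =
      Polynomial.C (MvPolynomial.aeval y F) * Polynomial.X ^ d := by
  classical
  rw [MvPolynomial.aeval_def, MvPolynomial.aeval_def, MvPolynomial.eval₂_eq', MvPolynomial.eval₂_eq',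
    map_sum, Finset.sum_mul]
  refine Finset.sum_congr rfl fun e he => ?_
  have h1 : ∑ j, e j = d := by
    have h2 := hF (MvPolynomial.mem_support_iff.1 he)
    rw [Finsupp.weight_apply, Finsupp.sum_fintype _ _ (by simp)] at h2
    simpa using h2
  have h2 : ∏ i, hom (y i) ^ e i = Polynomial.C (∏ i, y i ^ e i) * Polynomial.X ^ d := by
    unfold hom
    simp only [mul_pow]
    rw [Finset.prod_mul_distrib, map_prod, Finset.prod_pow_eq_pow_sum, h1]
    simp only [map_pow]
  rw [h2, map_mul, ← mul_assoc]
  rfl

/-- A homogeneous relation. -/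
theorem exists_homogeneous_relation {m : ℕ} (y : Fin m → L)
    (h : ¬ AlgebraicIndependent ℂ fun j => hom (y j)) :
    ∃ (F : MvPolynomial (Fin m) ℂ) (d : ℕ), F ≠ 0 ∧ F.IsHomogeneous d ∧
      MvPolynomial.aeval y F = 0 := by
  classical
  rw [algebraicIndependent_iff] at h
  push Not at h
  obtain ⟨p, hp, hp0⟩ := h
  obtain ⟨d, hd⟩ : ∃ d, MvPolynomial.homogeneousComponent d p ≠ 0 := by
    by_contra hcon
    push Not at hcon
    apply hp0
    rw [← MvPolynomial.sum_homogeneousComponent p]
    exact Finset.sum_eq_zero fun i _ => hcon i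
  refine ⟨_, d, hd, MvPolynomial.homogeneousComponent_isHomogeneous d p, ?_⟩
  have h1 : ∑ i ∈ Finset.range (p.totalDegree + 1),
      Polynomial.C (MvPolynomial.aeval y (MvPolynomial.homogeneousComponent i p)) *
        Polynomial.X ^ i = 0 := by
    rw [← hp]
    conv_rhs => rw [← MvPolynomial.sum_homogeneousComponent p]
    rw [map_sum]
    exact Finset.sum_congr rfl fun i _ =>
      (aeval_hom y (MvPolynomial.homogeneousComponent_isHomogeneous i p)).symm
  have h2 := congrArg (fun q => Polynomial.coeff q d) h1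
  simp only [Polynomial.finset_sum_coeff, Polynomial.coeff_C_mul, Polynomial.coeff_X_pow,
    Polynomial.coeff_zero] at h2
  by_cases hdr : d ∈ Finset.range (p.totalDegree + 1)
  · rw [Finset.sum_eq_single d] at h2
    · simpa using h2
    · intro b _ hb
      rw [if_neg (Ne.symm hb), mul_zero]
    · intro h3
      exact absurd hdr h3
  · exfalso
    apply hd
    apply MvPolynomial.homogeneousComponent_eq_zero
    rw [Finset.mem_range] at hdr
    omega

end Pool.Agent.LibNoe
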