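import Pool.Agent.LibNoe.A1

/-!
ROW [LN A2]. One linear projection: the integral equation.
-/

set_option autoImplicit false

open Pool.Agent.LibGMM Pool.Agent.LibK

namespace Pool.Agent.LibNoe

variable {L : Type} [Field L] [Algebra ℂ L]

theorem a2_coeff {A : Type} [CommRing A] {ι : Type} (s : Finset ι) (Y : ι → Polynomial A)
    (hY : ∀ i, (Y i).natDegree ≤ 1) (e : ι → ℕ) :
    (∏ i ∈ s, Y i ^ e i).natDegree ≤ ∑ i ∈ s, e i ∧
      (∏ i ∈ s, Y i ^ e i).coeff (∑ i ∈ s, e i) = ∏ i ∈ s, (Y i).coeff 1 ^ e i := by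
  classical
  induction s using Finset.induction_on with
  | empty => simp
  | insert i s his ih =>
    rw [Finset.prod_insert his, Finset.sum_insert his, Finset.prod_insert his]
    have h1 : (Y i ^ e i).natDegree ≤ e i := by
      refine (Polynomial.natDegree_pow_le).trans ?_
      calc e i * (Y i).natDegree ≤ e i * 1 := Nat.mul_le_mul_left _ (hY i)
        _ = e i := mul_one _
    have h2 : (Y i ^ e i).coeff (e i) = (Y i).coeff 1 ^ e i := by
      have h3 := Polynomial.coeff_pow_of_natDegree_le (m := e i) (hY i)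
      rwa [mul_one] at h3
    refine ⟨(Polynomial.natDegree_mul_le).trans (Nat.add_le_add h1 ih.1), ?_⟩
    rw [Polynomial.coeff_mul_add_eq_of_natDegree_le h1 ih.1, h2, ih.2]

theorem a2_scale {m : ℕ} {F : MvPolynomial (Fin m) ℂ} {d : ℕ} (hF : F.IsHomogeneous d)
    (t : ℂ) (c : Fin m → ℂ) :
    MvPolynomial.eval (fun i => t * c i) F = t ^ d * MvPolynomial.eval c F := by
  rw [MvPolynomial.eval_eq', MvPolynomial.eval_eq', Finset.mul_sum]
  refine Finset.sum_congr rfl fun e he => ?_
  have h1 : ∑ j, e j = d := by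
    have h2 := hF (MvPolynomial.mem_support_iff.1 he)
    rw [Finsupp.weight_apply, Finsupp.sum_fintype _ _ (by simp)] at h2
    simpa using h2
  simp only [mul_pow]
  rw [Finset.prod_mul_distrib, Finset.prod_pow_eq_pow_sum, h1]
  ring

/-- One linear projection. -/
theorem step {m : ℕ} (y : Fin (m + 1) → L) {F : MvPolynomial (Fin (m + 1)) ℂ} {d : ℕ}
    (hF0 : F ≠ 0) (hF : F.IsHomogeneous d) (hy : MvPolynomial.aeval y F = 0) :
    ∃ y' : Fin m → L, (∀ j, y' j ∈ Submodule.span ℂ (Set.range y)) ∧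
      ∀ j, IsIntegral (gring y') (hom (y j)) := by
  classical
  -- the point
  obtain ⟨c, hc0, hc⟩ : ∃ c : Fin (m + 1) → ℂ, c 0 = 1 ∧ MvPolynomial.eval c F ≠ 0 := by
    have h1 : F * MvPolynomial.X 0 ≠ 0 := mul_ne_zero hF0 (MvPolynomial.X_ne_zero _)
    obtain ⟨c, hc⟩ : ∃ c, MvPolynomial.eval c (F * MvPolynomial.X 0) ≠ 0 := by
      by_contra hcon
      push Not at hcon
      exact h1 (MvPolynomial.funext fun c => by rw [hcon c, map_zero])
    rw [map_mul, MvPolynomial.eval_X] at hc
    have h2 : c 0 ≠ 0 := right_ne_zero_of_mul hc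
    refine ⟨fun i => (c 0)⁻¹ * c i, inv_mul_cancel₀ h2, ?_⟩
    rw [a2_scale hF]
    exact mul_ne_zero (pow_ne_zero _ (inv_ne_zero h2)) (left_ne_zero_of_mul hc)
  let y' : Fin m → L := fun j => y j.succ - c j.succ • y 0
  have hy' : ∀ j, hom (y j.succ) = hom (y' j) + c j.succ • hom (y 0) := by
    intro j
    rw [← hom_smul, ← hom_add, sub_add_cancel]
  refine ⟨y', fun j => Submodule.sub_mem _ (Submodule.subset_span ⟨_, rfl⟩)
    (Submodule.smul_mem _ _ (Submodule.subset_span ⟨_, rfl⟩)), ?_⟩
  set A := gring y' with hA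
  let b : Fin (m + 1) → A := Fin.cases 0 fun j => ⟨hom (y' j), hom_mem_gring y' j⟩
  let Y : Fin (m + 1) → Polynomial A := fun i =>
    Polynomial.C (b i) + Polynomial.C (algebraMap ℂ A (c i)) * Polynomial.X
  have hYd : ∀ i, (Y i).natDegree ≤ 1 := by
    intro i
    refine Polynomial.natDegree_add_le_of_degree_le ?_ ?_
    · exact (Polynomial.natDegree_C _).le.trans zero_le_one
    · exact (Polynomial.natDegree_C_mul_le _ _).trans Polynomial.natDegree_X_le
  have hYc : ∀ i, (Y i).coeff 1 = algebraMap ℂ A (c i) := by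
    intro i
    simp [Y, Polynomial.coeff_C]
  have hYv : ∀ i, Polynomial.aeval (hom (y 0)) (Y i) = hom (y i) := by
    intro i
    have h1 : Polynomial.aeval (hom (y 0)) (Y i) =
        ((b i : A) : Polynomial L) + c i • hom (y 0) := by
      simp only [Y, map_add, map_mul, Polynomial.aeval_C, Polynomial.aeval_X]
      rw [Algebra.smul_def]
      rfl
    rw [h1]
    refine Fin.cases ?_ (fun j => ?_) i
    · rw [hc0, one_smul]
      have : ((b 0 : A) : Polynomial L) = 0 := rfl
      rw [this, zero_add]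
    · rw [hy' j]
      rfl
  let G : Polynomial A := MvPolynomial.aeval Y F
  have hGsum : G = ∑ e ∈ F.support, Polynomial.C (algebraMap ℂ A (F.coeff e)) *
      ∏ i, Y i ^ e i := by
    show MvPolynomial.aeval Y F = _
    rw [MvPolynomial.aeval_def, MvPolynomial.eval₂_eq']
    rfl
  have hdeg : ∀ e ∈ F.support, ∑ j, e j = d := by
    intro e he
    have h2 := hF (MvPolynomial.mem_support_iff.1 he)
    rw [Finsupp.weight_apply, Finsupp.sum_fintype _ _ (by simp)] at h2
    simpa using h2
  have hGd : G.natDegree ≤ d := by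
    rw [hGsum]
    refine Polynomial.natDegree_sum_le_of_forall_le _ _ fun e he => ?_
    refine (Polynomial.natDegree_C_mul_le _ _).trans ?_
    have h1 := (a2_coeff Finset.univ Y hYd e).1
    rwa [hdeg e he] at h1
  have hGc : G.coeff d = algebraMap ℂ A (MvPolynomial.eval c F) := by
    rw [hGsum, Polynomial.finset_sum_coeff, MvPolynomial.eval_eq', map_sum]
    refine Finset.sum_congr rfl fun e he => ?_
    have h1 := (a2_coeff Finset.univ Y hYd e).2
    rw [hdeg e he] at h1
    rw [Polynomial.coeff_C_mul, h1, map_mul, map_prod]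
    simp only [hYc, map_pow]
  have hGv : Polynomial.aeval (hom (y 0)) G = 0 := by
    have h1 : Polynomial.aeval (hom (y 0)) G =
        MvPolynomial.aeval (fun i => Polynomial.aeval (hom (y 0)) (Y i)) F := by
      show ((Polynomial.aeval (R := A) (hom (y 0))).restrictScalars ℂ) (MvPolynomial.aeval Y F) = _
      rw [← AlgHom.comp_apply, MvPolynomial.comp_aeval]
      rfl
    rw [h1]
    simp only [hYv]
    rw [aeval_hom y hF, hy, map_zero, zero_mul]
  have hint0 : IsIntegral A (hom (y 0)) := by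
    refine ⟨Polynomial.C (algebraMap ℂ A (MvPolynomial.eval c F)⁻¹) * G, ?_, ?_⟩
    · refine Polynomial.monic_of_natDegree_le_of_coeff_eq_one d
        ((Polynomial.natDegree_C_mul_le _ _).trans hGd) ?_
      rw [Polynomial.coeff_C_mul, hGc, ← map_mul, inv_mul_cancel₀ hc, map_one]
    · have h2 : Polynomial.aeval (hom (y 0))
          (Polynomial.C (algebraMap ℂ A (MvPolynomial.eval c F)⁻¹) * G) = 0 := by
        rw [map_mul, hGv, mul_zero]
      exact h2
  intro j
  refine Fin.cases hint0 (fun j => ?_) j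
  rw [hy' j, ← algebraMap_smul A (c j.succ) (hom (y 0))]
  exact (isIntegral_algebraMap (x := (⟨hom (y' j), hom_mem_gring y' j⟩ : A))).add (hint0.smul _)

end Pool.Agent.LibNoe
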