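import Pool.Agent.LibNoe.A2

/-!
ROW [LN A3]. Projection to the plane.
-/

set_option autoImplicit false

open Pool.Agent.LibGMM Pool.Agent.LibK

namespace Pool.Agent.LibNoe

/-- Transitivity of integrality (no inclusion needed). -/
theorem int_trans {B : Type} [CommRing B] [Algebra ℂ B] {R S : Subalgebra ℂ B}
    (h : ∀ s ∈ S, IsIntegral R s) {r : B} (hr : IsIntegral S r) : IsIntegral R r := by
  obtain ⟨p, hp, hpr⟩ := hr
  let φ : S →+* integralClosure R B :=
    { toFun := fun s => ⟨s.1, h s.1 s.2⟩
      map_one' := rfl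
      map_mul' := fun _ _ => rfl
      map_zero' := rfl
      map_add' := fun _ _ => rfl }
  have h1 : IsIntegral (integralClosure R B) r := by
    refine ⟨p.map φ, hp.map φ, ?_⟩
    rw [Polynomial.eval₂_map]
    exact hpr
  exact isIntegral_trans (R := R) (A := integralClosure R B) r h1

variable {L : Type} [Field L] [Algebra ℂ L]

theorem gring_integral {m n : ℕ} {x : Fin n → L} {y : Fin m → L}
    (h : ∀ j, IsIntegral (gring x) (hom (y j))) : ∀ s ∈ gring y, IsIntegral (gring x) s := by
  intro s hs
  unfold gring at hs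
  induction hs using Algebra.adjoin_induction with
  | mem s hs =>
    obtain ⟨j, rfl⟩ := hs
    exact h j
  | algebraMap c =>
    exact isIntegral_algebraMap (R := gring x) (x := algebraMap ℂ (gring x) c)
  | add s t _ _ h1 h2 => exact h1.add h2
  | mul s t _ _ h1 h2 => exact h1.mul h2

theorem trdeg_poly (h : Algebra.trdeg ℂ L = 2) : Algebra.trdeg ℂ (Polynomial L) = 3 := by
  have h1 := trdeg_add_eq ℂ L (A := Polynomial L)
  rw [h, Polynomial.trdeg_of_isDomain] at h1
  rw [← h1]
  norm_num

/-- Projection to the plane. -/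
theorem exists_three (h : Algebra.trdeg ℂ L = 2) {m : ℕ} (y : Fin m → L) :
    ∃ x : Fin 3 → L, (∀ j, x j ∈ Submodule.span ℂ (Set.range y)) ∧
      ∀ j, IsIntegral (gring x) (hom (y j)) := by
  classical
  induction m with
  | zero =>
    exact ⟨fun _ => 0, fun _ => Submodule.zero_mem _, fun j => j.elim0⟩
  | succ m ih =>
    by_cases hm : m + 1 ≤ 3
    · refine ⟨fun j => if hj : (j : ℕ) < m + 1 then y ⟨j, hj⟩ else 0, fun j => ?_, fun j => ?_⟩
      · by_cases hj : (j : ℕ) < m + 1
        · simp only [dif_pos hj]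
          exact Submodule.subset_span ⟨_, rfl⟩
        · simp only [dif_neg hj]
          exact Submodule.zero_mem _
      · have h1 : hom (y j) ∈ gring (fun j : Fin 3 => if hj : (j : ℕ) < m + 1 then y ⟨j, hj⟩ else 0) := by
          have h2 := hom_mem_gring
            (fun j : Fin 3 => if hj : (j : ℕ) < m + 1 then y ⟨j, hj⟩ else 0) ⟨j, by omega⟩
          have h3 : (j : ℕ) < m + 1 := j.2
          simp only [dif_pos h3] at h2
          exact h2
        exact isIntegral_algebraMap (x := (⟨_, h1⟩ : gring
          (fun j : Fin 3 => if hj : (j : ℕ) < m + 1 then y ⟨j, hj⟩ else 0)))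
    · have hdep : ¬ AlgebraicIndependent ℂ fun j => hom (y j) := by
        intro hind
        have h1 := hind.cardinalMk_le_trdeg
        rw [trdeg_poly h, Cardinal.mk_fin] at h1
        have h2 : m + 1 ≤ 3 := by exact_mod_cast h1
        exact hm h2
      obtain ⟨F, d, hF0, hF, hy⟩ := exists_homogeneous_relation y hdep
      obtain ⟨y', hy', hint⟩ := step y hF0 hF hy
      obtain ⟨x, hx, hxint⟩ := ih y'
      refine ⟨x, fun j => ?_, fun j => ?_⟩
      · exact Submodule.span_le.2 (by rintro _ ⟨i, rfl⟩; exact hy' i) (hx j)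
      · exact int_trans (gring_integral hxint) (hint j)

end Pool.Agent.LibNoe
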