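import Pool.Agent.LibNoe.A3

/-!
ROW [LN A4]. Linear Noether normalisation.
-/

set_option autoImplicit false

open Pool.Agent.LibGMM Pool.Agent.LibK

namespace Pool.Agent.LibNoe

variable {L : Type} [Field L] [Algebra ℂ L]

/-- Specialisation `T ↦ τ`. -/
theorem spec_integral {n : ℕ} {x : Fin n → L} {y : L} (h : IsIntegral (gring x) (hom y)) (τ : L)
    (B : Subalgebra ℂ L) (hB : ∀ j, x j * τ ∈ B) : IsIntegral B (y * τ) := by
  obtain ⟨p, hp, hpr⟩ := h
  let φ : Polynomial L →ₐ[ℂ] L := (Polynomial.aeval (R := L) τ).restrictScalars ℂ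
  have hφh : ∀ z : L, φ (hom z) = z * τ := by
    intro z
    change Polynomial.aeval τ (Polynomial.C z * Polynomial.X) = z * τ
    rw [map_mul, Polynomial.aeval_C, Polynomial.aeval_X]
    rfl
  have hφ : ∀ s ∈ gring x, φ s ∈ B := by
    intro s hs
    have h1 : gring x ≤ B.comap φ := by
      refine Algebra.adjoin_le ?_
      rintro _ ⟨j, rfl⟩
      change φ (hom (x j)) ∈ B
      rw [hφh]
      exact hB j
    exact h1 hs
  let ψ : gring x →+* B :=
    { toFun := fun s => ⟨φ s, hφ s s.2⟩
      map_one' := Subtype.ext (map_one φ)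
      map_mul' := fun a b => Subtype.ext (map_mul φ _ _)
      map_zero' := Subtype.ext (map_zero φ)
      map_add' := fun a b => Subtype.ext (map_add φ _ _) }
  refine ⟨p.map ψ, hp.map ψ, ?_⟩
  rw [Polynomial.eval₂_map]
  have h1 := congrArg (φ : Polynomial L →+* L) hpr
  rw [Polynomial.hom_eval₂, map_zero] at h1
  have h2 : ((φ : Polynomial L →+* L) (hom y)) = y * τ := hφh y
  rw [h2] at h1
  exact h1

/-- Elements of `L` which are algebraic over a subalgebra. -/
theorem algebraic_of_frac (Y : NormalModel L) (A : Subalgebra ℂ L) (t : L) (ht : t ≠ 0)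
    (h : ∀ i, IsAlgebraic A ((Y.g i : L) / t)) : Algebra.IsAlgebraic A L := by
  refine ⟨fun z => ?_⟩
  obtain ⟨i⟩ := Y.ne
  have h1 : ∀ j, IsAlgebraic A ((Y.g j : L) / Y.g i) := by
    intro j
    have h2 : (Y.g j : L) / Y.g i = ((Y.g j : L) / t) * ((Y.g i : L) / t)⁻¹ := by
      have h3 : (Y.g i : L) ≠ 0 := (Y.g i).ne_zero
      field_simp
    rw [h2]
    exact (h j).mul (h i).inv
  have h2 : ∀ a ∈ chart Y.g i, IsAlgebraic A a := by
    intro a ha
    unfold chart at ha
    induction ha using Algebra.adjoin_induction with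
    | mem s hs =>
      obtain ⟨j, rfl⟩ := hs
      exact h1 j
    | algebraMap c =>
      exact isAlgebraic_algebraMap (R := A) (A := L) (algebraMap ℂ A c)
    | add s t _ _ h1 h2 => exact h1.add h2
    | mul s t _ _ h1 h2 => exact h1.mul h2
  obtain ⟨a, ha, b, hb, -, rfl⟩ := Y.frac i z
  rw [div_eq_mul_inv]
  exact (h2 a ha).mul (h2 b hb).inv

/-- Linear Noether normalisation. -/
theorem exists_linNorm (Y : NormalModel L) (hd : Algebra.trdeg ℂ L = 2) :
    Nonempty (LinNorm Y) := by
  classical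
  have := Y.fin
  obtain ⟨m, ⟨e⟩⟩ := Finite.exists_equiv_fin Y.ι
  obtain ⟨x, hx, hint⟩ := exists_three hd (fun j : Fin m => (Y.g (e.symm j) : L))
  have hint' : ∀ i, IsIntegral (gring x) (hom (Y.g i : L)) := by
    intro i
    have h1 := hint (e i)
    simpa using h1
  have hrange : Set.range (fun j : Fin m => (Y.g (e.symm j) : L)) =
      Set.range fun i => (Y.g i : L) := by
    ext z
    constructor
    · rintro ⟨j, rfl⟩
      exact ⟨e.symm j, rfl⟩
    · rintro ⟨i, rfl⟩
      exact ⟨e i, by simp⟩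
  rw [hrange] at hx
  -- one coordinate is not zero
  have h0 : ∃ j0, x j0 ≠ 0 := by
    by_contra hcon
    push Not at hcon
    obtain ⟨i⟩ := Y.ne
    have h1 : Algebra.IsAlgebraic ℂ L := by
      refine ⟨fun z => ?_⟩
      have h2 := spec_integral (hint' i) (z / (Y.g i : L)) ⊥ fun j => by
        rw [hcon j, zero_mul]
        exact Subalgebra.zero_mem _
      rw [mul_div_cancel₀ _ (Y.g i).ne_zero] at h2
      have h3 : IsAlgebraic (⊥ : Subalgebra ℂ L) z := h2.isAlgebraic
      have h4 : Algebra.IsAlgebraic ℂ (⊥ : Subalgebra ℂ L) := by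
        refine ⟨fun s => ?_⟩
        obtain ⟨c, hc⟩ := Algebra.mem_bot.1 s.2
        have h5 : s = algebraMap ℂ _ c := Subtype.ext hc.symm
        rw [h5]
        exact isAlgebraic_algebraMap c
      exact h3.restrictScalars ℂ
    rw [_root_.trdeg_eq_zero] at hd
    exact two_ne_zero hd.symm
  -- the transcendence basis
  have hind : ∀ j0, x j0 ≠ 0 →
      AlgebraicIndependent ℂ fun l : Fin 2 => x (j0.succAbove l) / x j0 := by
    intro j0 hj0
    set w : Fin 2 → L := fun l => x (j0.succAbove l) / x j0 with hw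
    have h1 : ∀ j, x j * (x j0)⁻¹ ∈ Algebra.adjoin ℂ (Set.range w) := by
      intro j
      by_cases hj : j = j0
      · subst hj
        rw [mul_inv_cancel₀ hj0]
        exact Subalgebra.one_mem _
      · obtain ⟨l, rfl⟩ := Fin.exists_succAbove_eq hj
        exact Algebra.subset_adjoin ⟨l, div_eq_mul_inv _ _⟩
    have h2 : Algebra.IsAlgebraic (Algebra.adjoin ℂ (Set.range w)) L := by
      refine algebraic_of_frac Y _ (x j0) hj0 fun i => ?_
      have h3 := spec_integral (hint' i) (x j0)⁻¹ _ h1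
      rw [← div_eq_mul_inv] at h3
      exact h3.isAlgebraic
    exact (Algebra.IsAlgebraic.isTranscendenceBasis_of_le_trdeg_of_finite ℂ w
      (by rw [hd, Cardinal.mk_fin]; norm_num)).1
  obtain ⟨j0, hj0⟩ := h0
  have hne : ∀ j, x j ≠ 0 := by
    intro j
    by_cases hj : j = j0
    · rw [hj]; exact hj0
    · obtain ⟨l, rfl⟩ := Fin.exists_succAbove_eq hj
      have h1 := (hind j0 hj0).ne_zero l
      intro h2
      apply h1
      change x (j0.succAbove l) / x j0 = 0
      rw [h2, zero_div]
  refine ⟨{ x := fun j => Units.mk0 (x j) (hne j), mem := hx, int := hint', indep := ?_ }⟩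
  have h1 := hind 0 (hne 0)
  have h2 : (fun l : Fin 2 => x ((0 : Fin 3).succAbove l) / x 0) =
      ![(x 1) / x 0, (x 2) / x 0] := by
    funext l
    fin_cases l <;> rfl
  rw [h2] at h1
  exact h1

end Pool.Agent.LibNoe
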