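import Pool.Agent.LibNoe.A4
import Pool.Agent.LibGMM.G5
import Pool.Agent.LibGMM.G10

/-!
ROW [LN B1]. The coordinates of the linear Noether normalisation generate the hyperplane class.
-/

set_option autoImplicit false

open Pool.Agent.LibGMM Pool.Agent.LibK

namespace Pool.Agent.LibNoe

variable {L : Type} [Field L] [Algebra ℂ L]

/-- Integral elements over a subalgebra of a valuation ring are in the valuation ring. -/
theorem mem_val_of_integral (V : ValuationSubring L) (B : Subalgebra ℂ L) (hB : ∀ b ∈ B, b ∈ V)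
    {z : L} (hz : IsIntegral B z) : z ∈ V := by
  obtain ⟨p, hp, hpz⟩ := hz
  let φ : B →+* V :=
    { toFun := fun b => ⟨b, hB b b.2⟩
      map_one' := rfl
      map_mul' := fun _ _ => rfl
      map_zero' := rfl
      map_add' := fun _ _ => rfl }
  have h1 : IsIntegral V z := by
    refine ⟨p.map φ, hp.map φ, ?_⟩
    rw [Polynomial.eval₂_map]
    exact hpz
  obtain ⟨y, hy⟩ := IsIntegrallyClosed.isIntegral_iff.1 h1
  rw [← hy]
  exact y.2

/-- One of the coordinates generates the homogeneous coordinates in a valuation ring. -/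
theorem LinNorm.exists_min {Y : NormalModel L} (N : LinNorm Y) (V : ValuationSubring L)
    (hV : ∀ c : ℂ, algebraMap ℂ L c ∈ V) :
    ∃ j, (∀ l, (N.x l : L) / N.x j ∈ V) ∧ ∀ i, (Y.g i : L) / N.x j ∈ V := by
  obtain ⟨j, hj⟩ := Finite.exists_max fun j => V.valuation (N.x j : L)
  have h1 : ∀ l, (N.x l : L) / N.x j ∈ V := by
    intro l
    rw [← V.valuation_le_one_iff, map_div₀]
    have h2 : V.valuation (N.x j : L) ≠ 0 := (Valuation.ne_zero_iff _).2 (N.x j).ne_zero
    exact (div_le_one₀ (zero_lt_iff.2 h2)).2 (hj l)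
  refine ⟨j, h1, fun i => ?_⟩
  let B : Subalgebra ℂ L := Algebra.adjoin ℂ (Set.range fun l => (N.x l : L) / N.x j)
  have h3 : IsIntegral B ((Y.g i : L) * (N.x j : L)⁻¹) := by
    refine spec_integral (N.int i) (N.x j : L)⁻¹ B fun l => ?_
    rw [← div_eq_mul_inv]
    exact Algebra.subset_adjoin ⟨l, rfl⟩
  rw [div_eq_mul_inv]
  refine mem_val_of_integral V B (fun b hb => ?_) h3
  induction hb using Algebra.adjoin_induction with
  | mem s hs =>
    obtain ⟨l, rfl⟩ := hs
    exact h1 l
  | algebraMap c => exact hV c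
  | add s t _ _ h1 h2 => exact V.add_mem _ _ h1 h2
  | mul s t _ _ h1 h2 => exact V.mul_mem _ _ h1 h2

theorem LinNorm.mem_chart {Y : NormalModel L} (N : LinNorm Y) (i : Y.ι) (j : Fin 3) :
    (N.x j : L) / Y.g i ∈ chart Y.g i := by
  have h1 : ∀ z ∈ Submodule.span ℂ (Set.range fun i => (Y.g i : L)), z / Y.g i ∈ chart Y.g i := by
    intro z hz
    induction hz using Submodule.span_induction with
    | mem y hy =>
      obtain ⟨l, rfl⟩ := hy
      exact Algebra.subset_adjoin ⟨l, rfl⟩
    | zero => rw [zero_div]; exact Subalgebra.zero_mem _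
    | add y z _ _ h1 h2 => rw [add_div]; exact Subalgebra.add_mem _ h1 h2
    | smul c y _ h => rw [smul_div_assoc]; exact Subalgebra.smul_mem _ h c
  exact h1 _ (N.mem j)

/-- One of the coordinates is a generator at the point `p`. -/
theorem LinNorm.exists_unit {Y : NormalModel L} (N : LinNorm Y) (p : Y.Pt) :
    ∃ j, (⟨_, N.mem_chart p.i j⟩ : chart Y.g p.i) ∉ p.P := by
  by_contra hcon
  push Not at hcon
  have hne : p.P ≠ ⊤ := p.prime.ne_top
  let A : Subring L := (chart Y.g p.i).toSubring
  let I : Ideal A := p.P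
  obtain ⟨V, hAV, hIV⟩ := Ideal.image_subset_nonunits_valuationSubring (A := A) I hne
  have hV : ∀ c : ℂ, algebraMap ℂ L c ∈ V := fun c => hAV (Subalgebra.algebraMap_mem _ c)
  obtain ⟨j, -, hj⟩ := N.exists_min V hV
  have h1 : (N.x j : L) / Y.g p.i ∈ V.nonunits := hIV ⟨⟨_, N.mem_chart p.i j⟩, hcon j, rfl⟩
  have h2 := hj p.i
  rw [ValuationSubring.mem_nonunits_iff] at h1
  rw [← V.valuation_le_one_iff] at h2
  have h3 : V.valuation (((N.x j : L) / Y.g p.i) * ((Y.g p.i : L) / N.x j)) < 1 := by
    rw [map_mul]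
    exact mul_lt_one_of_lt_of_le h1 h2
  rw [div_mul_div_cancel₀ (Y.g p.i).ne_zero, div_self (N.x j).ne_zero, map_one] at h3
  exact lt_irrefl _ h3

/-- The coordinates generate the hyperplane class. -/
theorem LinNorm.hyp {Y : NormalModel L} (N : LinNorm Y) (Q : DVal L) :
    ⨅ i : Y.ι, Q.ord (Y.g i : L) =
      min (Q.ord (N.x 0 : L)) (min (Q.ord (N.x 1 : L)) (Q.ord (N.x 2 : L))) := by
  have := Y.fin
  have := Y.ne
  have hbd : BddBelow (Set.range fun i : Y.ι => Q.ord (Y.g i : L)) := (Set.finite_range _).bddBelow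
  have h1 : ∀ j, ⨅ i : Y.ι, Q.ord (Y.g i : L) ≤ Q.ord (N.x j : L) := by
    intro j
    have h2 : ∀ z ∈ Submodule.span ℂ (Set.range fun i => (Y.g i : L)),
        z = 0 ∨ ⨅ i : Y.ι, Q.ord (Y.g i : L) ≤ Q.ord z := by
      intro z hz
      induction hz using Submodule.span_induction with
      | mem y hy =>
        obtain ⟨l, rfl⟩ := hy
        exact Or.inr (ciInf_le hbd l)
      | zero => exact Or.inl rfl
      | add y z _ _ h1 h2 => exact Q.ord_add_ge h1 h2
      | smul c y _ h =>
        rcases h with h | h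
        · left
          rw [h, smul_zero]
        · by_cases hc : c = 0
          · left
            rw [hc, zero_smul]
          · by_cases hy : y = 0
            · left
              rw [hy, smul_zero]
            · right
              rw [Algebra.smul_def, Q.ord_mul' (by simpa using hc) hy, Q.ord_const, zero_add]
              exact h
    exact (h2 _ (N.mem j)).resolve_left (N.x j).ne_zero
  refine le_antisymm (le_min (h1 0) (le_min (h1 1) (h1 2))) ?_
  obtain ⟨j, -, hj⟩ := N.exists_min Q.toVal fun c => by rw [Q.mem_toVal, Q.ord_const]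
  refine le_ciInf fun i => ?_
  have h3 := Q.mem_toVal.1 (hj i)
  rw [Q.ord_div (Y.g i).ne_zero (N.x j).ne_zero] at h3
  have h4 : min (Q.ord (N.x 0 : L)) (min (Q.ord (N.x 1 : L)) (Q.ord (N.x 2 : L))) ≤
      Q.ord (N.x j : L) := by
    fin_cases j
    · exact min_le_left _ _
    · exact (min_le_right _ _).trans (min_le_left _ _)
    · exact (min_le_right _ _).trans (min_le_right _ _)
  omega

end Pool.Agent.LibNoe
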