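import Pool.Agent.LibNoe.B1
import Pool.Agent.LibRR.N01a

/-!
ROW [LN B2]. The field of rational functions of the plane and the projection.
-/

set_option autoImplicit false

open Pool.Agent.LibGMM Pool.Agent.LibK Pool.Agent.LibRR Pool.Agent.LibCov80

namespace Pool.Agent.LibNoe

variable {L : Type} [Field L] [Algebra ℂ L]

namespace LinNorm

variable {Y : NormalModel L} (N : LinNorm Y)

/-- The affine coordinates. -/
noncomputable def xx : L := (N.x 1 : L) / N.x 0

/-- The affine coordinates. -/
noncomputable def yy : L := (N.x 2 : L) / N.x 0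

/-- The field of rational functions of the plane. -/
noncomputable def kk : IntermediateField ℂ L := IntermediateField.adjoin ℂ {N.xx, N.yy}

/-- The affine coordinates. -/
noncomputable def xk : N.kk := ⟨N.xx, IntermediateField.subset_adjoin _ _ (Or.inl rfl)⟩

/-- The affine coordinates. -/
noncomputable def yk : N.kk := ⟨N.yy, IntermediateField.subset_adjoin _ _ (Or.inr rfl)⟩

theorem isPlane : IsPlane N.xk N.yk := by
  constructor
  · have h1 : AlgebraicIndependent ℂ (N.kk.val ∘ ![N.xk, N.yk]) := by
      have h2 : N.kk.val ∘ ![N.xk, N.yk] = ![(N.x 1 : L) / N.x 0, (N.x 2 : L) / N.x 0] := by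
        funext l
        fin_cases l <;> rfl
      rw [h2]
      exact N.indep
    exact h1.of_comp _
  · rw [eq_top_iff]
    rintro z -
    have h1 : (IntermediateField.adjoin ℂ {N.xk, N.yk}).map N.kk.val = N.kk := by
      rw [IntermediateField.adjoin_map]
      have h2 : (N.kk.val : N.kk → L) '' {N.xk, N.yk} = {N.xx, N.yy} := by
        rw [Set.image_pair]
        rfl
      rw [h2]
      rfl
    have h2 : (z : L) ∈ (IntermediateField.adjoin ℂ {N.xk, N.yk}).map N.kk.val := by
      rw [h1]
      exact z.2
    obtain ⟨w, hw, hwz⟩ := h2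
    have h3 : w = z := Subtype.ext hwz
    rw [← h3]
    exact hw

theorem ratio_mem_kk (j l : Fin 3) : (N.x l : L) / N.x j ∈ N.kk := by
  have h1 : ∀ l, (N.x l : L) / N.x 0 ∈ N.kk := by
    intro l
    fin_cases l
    · change (N.x 0 : L) / N.x 0 ∈ N.kk
      rw [div_self (N.x 0).ne_zero]
      exact N.kk.one_mem
    · exact N.xk.2
    · exact N.yk.2
  have h2 : (N.x l : L) / N.x j = ((N.x l : L) / N.x 0) / ((N.x j : L) / N.x 0) := by
    rw [div_div_div_cancel_right₀ (N.x 0).ne_zero]
  rw [h2]
  exact N.kk.div_mem (h1 l) (h1 j)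

theorem finiteDimensional : FiniteDimensional N.kk L := by
  have := Y.fin
  obtain ⟨i⟩ := Y.ne
  let B : Subalgebra ℂ L := Algebra.adjoin ℂ (Set.range fun l => (N.x l : L) / N.x 0)
  have hB : ∀ b ∈ B, b ∈ N.kk := by
    intro b hb
    have h1 : B ≤ N.kk.toSubalgebra := by
      refine Algebra.adjoin_le ?_
      rintro _ ⟨l, rfl⟩
      exact N.ratio_mem_kk 0 l
    exact h1 hb
  have h1 : ∀ j, IsAlgebraic N.kk ((Y.g j : L) / N.x 0) := by
    intro j
    have h3 : IsIntegral B ((Y.g j : L) * (N.x 0 : L)⁻¹) := by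
      refine spec_integral (N.int j) (N.x 0 : L)⁻¹ B fun l => ?_
      rw [← div_eq_mul_inv]
      exact Algebra.subset_adjoin ⟨l, rfl⟩
    rw [← div_eq_mul_inv] at h3
    obtain ⟨p, hp, hpz⟩ := h3
    let φ : B →+* N.kk :=
      { toFun := fun b => ⟨b, hB b b.2⟩
        map_one' := rfl
        map_mul' := fun _ _ => rfl
        map_zero' := rfl
        map_add' := fun _ _ => rfl }
    have h4 : IsIntegral N.kk ((Y.g j : L) / N.x 0) := by
      refine ⟨p.map φ, hp.map φ, ?_⟩
      rw [Polynomial.eval₂_map]
      exact hpz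
    exact h4.isAlgebraic
  have h2 : ∀ j, IsIntegral N.kk ((Y.g j : L) / Y.g i) := by
    intro j
    have h3 : (Y.g j : L) / Y.g i = ((Y.g j : L) / N.x 0) / ((Y.g i : L) / N.x 0) := by
      rw [div_div_div_cancel_right₀ (N.x 0).ne_zero]
    rw [h3, div_eq_mul_inv]
    exact ((h1 j).mul (h1 i).inv).isIntegral
  have h3 : FiniteDimensional N.kk
      (IntermediateField.adjoin N.kk (Set.range fun j => (Y.g j : L) / Y.g i)) := by
    refine IntermediateField.finiteDimensional_adjoin ?_
    rintro _ ⟨j, rfl⟩
    exact h2 j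
  have h4 : IntermediateField.adjoin N.kk (Set.range fun j => (Y.g j : L) / Y.g i) = ⊤ := by
    rw [eq_top_iff]
    rintro z -
    have h5 : ∀ a ∈ chart Y.g i,
        a ∈ IntermediateField.adjoin N.kk (Set.range fun j => (Y.g j : L) / Y.g i) := by
      intro a ha
      unfold chart at ha
      induction ha using Algebra.adjoin_induction with
      | mem s hs => exact IntermediateField.subset_adjoin _ _ hs
      | algebraMap c =>
        exact IntermediateField.algebraMap_mem _ (algebraMap ℂ N.kk c)
      | add s t _ _ h1 h2 => exact add_mem h1 h2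
      | mul s t _ _ h1 h2 => exact mul_mem h1 h2
    obtain ⟨a, ha, b, hb, -, rfl⟩ := Y.frac i z
    exact div_mem (h5 a ha) (h5 b hb)
  rw [h4] at h3
  exact IntermediateField.topEquiv.toLinearEquiv.finiteDimensional

end LinNorm

end Pool.Agent.LibNoe
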