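import Pool.Agent.LibNoe.B2
import Pool.Agent.LibCov80.Prime

/-!
ROW [LN B3]. `Y` is the normalisation of the plane in `L`.
-/

set_option autoImplicit false

open Pool.Agent.LibGMM Pool.Agent.LibK Pool.Agent.LibRR Pool.Agent.LibCov80
open Pool.Agent.LibKB1a (planeAll)

namespace Pool.Agent.LibNoe

variable {L : Type} [Field L] [Algebra ℂ L]

namespace LinNorm

variable {Y : NormalModel L} (N : LinNorm Y)

/-- The chart of the plane as a subalgebra of `L`. -/
noncomputable def ch (j : Fin 3) : Subalgebra ℂ L :=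
  Algebra.adjoin ℂ (Set.range fun l => (N.x l : L) / N.x j)

theorem planeG_val (l : Fin 3) : (((planeModel N.isPlane).g l : N.kkˣ) : N.kk) =
    (⟨(N.x l : L) / N.x 0, N.ratio_mem_kk 0 l⟩ : N.kk) := by
  fin_cases l
  · apply Subtype.ext
    change (1 : L) = (N.x 0 : L) / N.x 0
    rw [div_self (N.x 0).ne_zero]
  · rfl
  · rfl

theorem map_chart (j : Fin 3) :
    (chart (planeModel N.isPlane).g j).map (IsScalarTower.toAlgHom ℂ N.kk L) = N.ch j := by
  unfold chart ch
  rw [AlgHom.map_adjoin, ← Set.range_comp]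
  congr 2
  funext l
  change ((((planeModel N.isPlane).g l : N.kkˣ) : N.kk) / ((planeModel N.isPlane).g j : N.kkˣ) :
    N.kk).1 = _
  rw [N.planeG_val, N.planeG_val]
  change ((N.x l : L) / N.x 0) / ((N.x j : L) / N.x 0) = _
  rw [div_div_div_cancel_right₀ (N.x 0).ne_zero]

theorem integral_chart (j : Fin 3) {z : L} (hz : IsIntegral (N.ch j) z) :
    IsIntegral (chart (planeModel N.isPlane).g j) z := by
  have h : ∀ B : Subalgebra ℂ L,
      B = (chart (planeModel N.isPlane).g j).map (IsScalarTower.toAlgHom ℂ N.kk L) →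
      IsIntegral B z → IsIntegral (chart (planeModel N.isPlane).g j) z := by
    rintro B rfl ⟨p, hp, hpz⟩
    let e := (chart (planeModel N.isPlane).g j).equivMapOfInjective
      (IsScalarTower.toAlgHom ℂ N.kk L) (algebraMap N.kk L).injective
    have he : ∀ b, (algebraMap N.kk L) (e.symm b) = b := by
      intro b
      have h1 : (e (e.symm b) : L) = b := by rw [e.apply_symm_apply]
      exact h1
    refine ⟨p.map (e.symm : _ →+* _), hp.map _, ?_⟩
    rw [Polynomial.eval₂_map]
    have h2 : (algebraMap (chart (planeModel N.isPlane).g j) L).comp (e.symm : _ →+* _) =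
        algebraMap ((chart (planeModel N.isPlane).g j).map (IsScalarTower.toAlgHom ℂ N.kk L)) L := by
      ext b
      exact he b
    rw [h2]
    exact hpz
  exact h _ (N.map_chart j).symm hz

theorem isCover : IsCover (planeModel N.isPlane) Y := by
  intro p
  obtain ⟨j, hj⟩ := N.exists_unit p
  have hmul := fun {a b : L} => Y.mul_mem_loc p (x := a) (y := b)
  have hchart : ∀ a ∈ chart Y.g p.i, a ∈ Y.loc p := by
    intro a ha
    exact ⟨⟨a, ha⟩, 1, fun h => p.prime.ne_top ((Ideal.eq_top_iff_one _).2 h), by simp⟩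
  have hinv : ∀ a : chart Y.g p.i, a ∉ p.P → (a : L)⁻¹ ∈ Y.loc p := by
    intro a ha
    exact ⟨1, a, ha, by simp⟩
  have hs0 : (Y.g p.i : L) / N.x j ≠ 0 := div_ne_zero (Y.g p.i).ne_zero (N.x j).ne_zero
  have hsinv : ((Y.g p.i : L) / N.x j)⁻¹ ∈ Y.loc p := by
    rw [inv_div]
    exact hchart _ (N.mem_chart p.i j)
  have hs : (Y.g p.i : L) / N.x j ∈ Y.loc p := by
    have h1 := hinv _ hj
    rwa [inv_div] at h1
  -- the coordinate ring
  have hratio : ∀ l, (N.x l : L) / N.x j ∈ Y.loc p := by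
    intro l
    have h1 : (N.x l : L) / N.x j = ((N.x l : L) / Y.g p.i) * ((Y.g p.i : L) / N.x j) := by
      rw [div_mul_div_cancel₀ (Y.g p.i).ne_zero]
    rw [h1]
    exact hmul (hchart _ (N.mem_chart p.i l)) hs
  have hch : ∀ a ∈ N.ch j, a ∈ Y.loc p := by
    intro a ha
    unfold ch at ha
    induction ha using Algebra.adjoin_induction with
    | mem s hs =>
      obtain ⟨l, rfl⟩ := hs
      exact hratio l
    | algebraMap c => exact Y.const_mem_loc p c
    | add s t _ _ h1 h2 => exact Y.add_mem_loc p h1 h2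
    | mul s t _ _ h1 h2 => exact Y.mul_mem_loc p h1 h2
  refine ⟨j, fun a ha => hch _ ?_, fun y hy => ?_⟩
  · rw [← N.map_chart j]
    exact ⟨a, ha, rfl⟩
  · -- denominators
    have hg : ∀ l, IsIntegral (N.ch j) ((Y.g l : L) / N.x j) := by
      intro l
      rw [div_eq_mul_inv]
      refine spec_integral (N.int l) (N.x j : L)⁻¹ (N.ch j) fun l => ?_
      rw [← div_eq_mul_inv]
      exact Algebra.subset_adjoin ⟨l, rfl⟩
    have hden : ∀ a ∈ chart Y.g p.i, ∃ n : ℕ,
        IsIntegral (N.ch j) (((Y.g p.i : L) / N.x j) ^ n * a) := by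
      intro a ha
      unfold chart at ha
      induction ha using Algebra.adjoin_induction with
      | mem s hs =>
        obtain ⟨l, rfl⟩ := hs
        refine ⟨1, ?_⟩
        have h1 : ((Y.g p.i : L) / N.x j) ^ 1 * ((Y.g l : L) / Y.g p.i) = (Y.g l : L) / N.x j := by
          rw [pow_one, mul_comm, div_mul_div_cancel₀ (Y.g p.i).ne_zero]
        rw [h1]
        exact hg l
      | algebraMap c =>
        refine ⟨0, ?_⟩
        rw [pow_zero, one_mul]
        exact isIntegral_algebraMap (R := N.ch j) (x := algebraMap ℂ (N.ch j) c)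
      | add s t _ _ h1 h2 =>
        obtain ⟨n, hn⟩ := h1
        obtain ⟨m, hm⟩ := h2
        refine ⟨n + m, ?_⟩
        have h3 : ((Y.g p.i : L) / N.x j) ^ (n + m) * (s + t) =
            ((Y.g p.i : L) / N.x j) ^ m * (((Y.g p.i : L) / N.x j) ^ n * s) +
            ((Y.g p.i : L) / N.x j) ^ n * (((Y.g p.i : L) / N.x j) ^ m * t) := by ring
        rw [h3]
        exact (((hg p.i).pow m).mul hn).add (((hg p.i).pow n).mul hm)
      | mul s t _ _ h1 h2 =>
        obtain ⟨n, hn⟩ := h1
        obtain ⟨m, hm⟩ := h2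
        refine ⟨n + m, ?_⟩
        have h3 : ((Y.g p.i : L) / N.x j) ^ (n + m) * (s * t) =
            (((Y.g p.i : L) / N.x j) ^ n * s) * (((Y.g p.i : L) / N.x j) ^ m * t) := by ring
        rw [h3]
        exact hn.mul hm
    obtain ⟨a, b, hb, rfl⟩ := hy
    obtain ⟨n, hn⟩ := hden a a.2
    obtain ⟨m, hm⟩ := hden b b.2
    have hb0 : (b : L) ≠ 0 := coe_ne Y p hb
    refine ⟨((Y.g p.i : L) / N.x j) ^ (n + m) * a, ((Y.g p.i : L) / N.x j) ^ (n + m) * b,
      N.integral_chart j ?_, N.integral_chart j ?_, ?_, mul_ne_zero (pow_ne_zero _ hs0) hb0, ?_⟩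
    · have h3 : ((Y.g p.i : L) / N.x j) ^ (n + m) * (a : L) =
          ((Y.g p.i : L) / N.x j) ^ m * (((Y.g p.i : L) / N.x j) ^ n * a) := by ring
      rw [h3]
      exact ((hg p.i).pow m).mul hn
    · have h3 : ((Y.g p.i : L) / N.x j) ^ (n + m) * (b : L) =
          ((Y.g p.i : L) / N.x j) ^ n * (((Y.g p.i : L) / N.x j) ^ m * b) := by ring
      rw [h3]
      exact ((hg p.i).pow n).mul hm
    · rw [mul_inv, ← inv_pow]
      refine hmul ?_ (hinv b hb)
      have h4 : ∀ n : ℕ, (((Y.g p.i : L) / N.x j)⁻¹) ^ n ∈ Y.loc p := by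
        intro n
        induction n with
        | zero =>
          rw [pow_zero]
          exact hchart 1 (Subalgebra.one_mem _)
        | succ n ih =>
          rw [pow_succ]
          exact hmul ih hsinv
      exact h4 _
    · rw [mul_div_mul_left _ _ (pow_ne_zero _ hs0)]

theorem primes_eq :
    letI := N.finiteDimensional
    primes Y = upP L N.xk N.yk := by
  letI := N.finiteDimensional
  ext Q
  constructor
  · intro hQ
    exact (planeModel_isPrimeDiv N.isPlane _).1 (prime_down N.isCover (over_bel N.kk Q) hQ)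
  · intro hQ
    exact prime_up N.isCover (over_bel N.kk Q) ((planeModel_isPrimeDiv N.isPlane _).2 hQ)

theorem hyp_eq (Q : DVal L) :
    hypZ Y Q + Q.ord (N.x 0 : L) = hInf N.xk N.yk Q := by
  have h1 : Q.ord (algebraMap N.kk L N.xk) = Q.ord (N.x 1 : L) - Q.ord (N.x 0 : L) :=
    Q.ord_div (N.x 1).ne_zero (N.x 0).ne_zero
  have h2 : Q.ord (algebraMap N.kk L N.yk) = Q.ord (N.x 2 : L) - Q.ord (N.x 0 : L) :=
    Q.ord_div (N.x 2).ne_zero (N.x 0).ne_zero
  unfold hypZ hInf
  rw [N.hyp Q, h1, h2]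
  omega

end LinNorm

end Pool.Agent.LibNoe
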