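import Pool.Agent.LibL.Base
import Pool.Agent.LibCov80.Defs

/-!
THEOREM K+, block RR, part N: linear Noether normalisation of a normal projective surface `Y`, i.e.
a finite projection of `Y` to the projective plane.
-/

set_option autoImplicit false

open Pool.Agent.LibGMM Pool.Agent.LibK

namespace Pool.Agent.LibNoe

variable {L : Type} [Field L] [Algebra ℂ L]

/-- The homogeneous coordinate `y T` in `L[T]`. -/
noncomputable def hom (y : L) : Polynomial L := Polynomial.C y * Polynomial.X

/-- The graded ring `ℂ[x_j T]`. -/
noncomputable def gring {m : ℕ} (x : Fin m → L) : Subalgebra ℂ (Polynomial L) :=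
  Algebra.adjoin ℂ (Set.range fun j => hom (x j))

theorem hom_add (y z : L) : hom (y + z) = hom y + hom z := by
  unfold hom
  rw [map_add, add_mul]

theorem hom_smul (c : ℂ) (y : L) : hom (c • y) = c • hom y := by
  unfold hom
  rw [Algebra.smul_def, Algebra.smul_def, map_mul, mul_assoc]
  rfl

theorem hom_zero : hom (0 : L) = 0 := by
  unfold hom
  rw [map_zero, zero_mul]

theorem hom_mem_gring {m : ℕ} (x : Fin m → L) (j : Fin m) : hom (x j) ∈ gring x :=
  Algebra.subset_adjoin ⟨j, rfl⟩

theorem hom_mem_of_span {m : ℕ} (x : Fin m → L) {y : L} (hy : y ∈ Submodule.span ℂ (Set.range x)) :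
    hom y ∈ gring x := by
  induction hy using Submodule.span_induction with
  | mem y hy =>
    obtain ⟨j, rfl⟩ := hy
    exact hom_mem_gring x j
  | zero => rw [hom_zero]; exact Subalgebra.zero_mem _
  | add y z _ _ h1 h2 => rw [hom_add]; exact Subalgebra.add_mem _ h1 h2
  | smul c y _ h => rw [hom_smul]; exact Subalgebra.smul_mem _ h c

/-- A linear Noether normalisation of `Y`: three linear combinations of the homogeneous coordinates,
over which the homogeneous coordinate ring is integral. -/
structure LinNorm (Y : NormalModel L) where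
  x : Fin 3 → Lˣ
  mem : ∀ j, (x j : L) ∈ Submodule.span ℂ (Set.range fun i => (Y.g i : L))
  int : ∀ i, IsIntegral (gring fun j => (x j : L)) (hom (Y.g i : L))
  indep : AlgebraicIndependent ℂ ![(x 1 : L) / x 0, (x 2 : L) / x 0]

end Pool.Agent.LibNoe
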